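import Pool.Agent.P8H36.FD.Stm

/-!
# Project FD (helper36), package ARI (helper45)
-/

set_option autoImplicit false

namespace Pool.Agent.P8H45.FD

open Pool.Agent.P8H36.FD

theorem ari : S_ARI := by
  intro a b n w N ha hab hn hw hwd hwm hN
  rcases hwd with ⟨a', rfl⟩ | ⟨b', rfl⟩
  · have ha' : 0 < a' := Nat.pos_of_ne_zero fun h => by rw [h, mul_zero] at ha; omega
    have e1 : w * a' * b * n / w = a' * b * n := by
      rw [mul_assoc, mul_assoc, Nat.mul_div_cancel_left _ hw, mul_assoc]
    rw [e1] at hN
    by_cases h1 : a' * n = 1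
    · have h2 : a' = 1 := Nat.eq_one_of_mul_eq_one_right h1
      have h3 : n = 1 := Nat.eq_one_of_mul_eq_one_left h1
      subst h2 h3
      rw [mul_one, mul_one] at *
      have h4 : w ∣ b - 1 := by
        have h5 : w + b - 1 = w + (b - 1) := by omega
        rw [h5] at hwm
        exact (Nat.dvd_add_right (dvd_refl w)).1 hwm
      refine ⟨by omega, fun h => absurd h4 h, fun h => absurd h4 h⟩
    · have h2 : 2 ≤ a' * n := by
        have : 0 < a' * n := Nat.mul_pos ha' hn
        omega
      have h3 : 2 * b ≤ a' * b * n := by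
        calc 2 * b ≤ (a' * n) * b := Nat.mul_le_mul_right b h2
          _ = a' * b * n := by ring
      refine ⟨by omega, fun _ => by omega, fun _ _ => by omega⟩
  · have hb' : 0 < b' := Nat.pos_of_ne_zero fun h => by rw [h, mul_zero] at hab; omega
    have e1 : a * (w * b') * n / w = a * n * b' := by
      have : a * (w * b') * n = w * (a * n * b') := by ring
      rw [this, Nat.mul_div_cancel_left _ hw]
    rw [e1] at hN
    have han : 2 ≤ a * n := by
      calc 2 ≤ a := ha
        _ = a * 1 := (mul_one a).symm
        _ ≤ a * n := Nat.mul_le_mul_left a hn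
    have h1 : w ∣ a * n - 1 := by
      have h2 : (a + w * b') * n - 1 = w * (b' * n) + (a * n - 1) := by
        have : (a + w * b') * n = w * (b' * n) + a * n := by ring
        omega
      rw [h2] at hwm
      exact (Nat.dvd_add_right (dvd_mul_right w _)).1 hwm
    obtain ⟨r, hr⟩ := h1
    have hr1 : a * n = 1 + w * r := by omega
    have hr0 : 0 < r := Nat.pos_of_ne_zero fun h => by rw [h, mul_zero] at hr1; omega
    rw [hr1] at hN
    have e2 : (1 + w * r) * b' = b' + r * (w * b') := by ring
    rw [e2] at hN
    have h3 : w * b' ≤ r * (w * b') := Nat.le_mul_of_pos_left _ hr0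
    refine ⟨by omega, fun _ => by omega, fun _ hv => ?_⟩
    by_cases hr2 : r = 1
    · exfalso
      subst hr2
      refine hv w (dvd_mul_right w b') ⟨n, ?_⟩
      omega
    · have h4 : 2 * (w * b') ≤ r * (w * b') := Nat.mul_le_mul_right _ (by omega)
      omega

end Pool.Agent.P8H45.FD
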